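import Pool.Agent.KS6_21.G.Fin

/-!
# MP_c30897_gt : interior estimates for geodesic nets with unbalanced vertices

`Net g` is the type of geodesic nets on `(M, g)`, possibly with unbalanced vertices: finitely many
vertices `V` and `m` edges, geodesic segments parametrised by arc length which join vertices and
meet each other and themselves only at common end points. `N.deg v` is the degree of `v`,
`N.Balanced v` the balancing condition at `v`, `N.IsClosedNet` says that all vertices are balanced
and have degree at least three (a closed geodesic net in the sense of the problem; connectedness is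
not needed). `N.length` is the length of the net and `N.lengthIn U` the length of its part in `U`.

The manifold `M` is a Hausdorff smooth manifold without boundary, modelled on a finite-dimensional
inner product space `E`; in (1), (2), (3) it need not be compact, and `g` need not be complete.
-/

set_option autoImplicit false

open Finset Classical MeasureTheory
open scoped Manifold ContDiff Topology
open Pool.Agent.GNet Pool.Agent.KS6_21.G

namespace Pool.Agent.Results.MP_c30897_gt.InteriorEstimate

/-- (1) Local estimate: every neighbourhood `U` of a point `p` contains a neighbourhood `W` of `p`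
such that the sum of the degrees of the vertices of degree at least three in `W` (in particular
their number, and the number of the edges which end there) is bounded, for all nets which are
balanced at their vertices in `U`, in terms of the length of their part in `U`.

(2) The same for a compact set `K` in an open set `U`.

(3) Let `K` be compact, `d` a continuous function on `M × M` vanishing on the diagonal (for example
the Riemannian distance) and `δ > 0`. For all nets of length at most `L`, whatever their unbalanced
vertices are, the sum of the degrees of the vertices `v` of degree at least three in `K` with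
`d v w ≥ δ` for all unbalanced vertices `w` is bounded.

(4) If `M` is compact, there is a function `f` such that every closed geodesic net of length `L` has
at most `f L` vertices and at most `f L` edges. -/
theorem result {E : Type*} [NormedAddCommGroup E] [InnerProductSpace ℝ E] [FiniteDimensional ℝ E]
    {M : Type*} [TopologicalSpace M] [T2Space M] [ChartedSpace E M] [IsManifold 𝓘(ℝ, E) ∞ M]
    (g : RMetric E M) :
    (∀ p : M, ∀ U ∈ 𝓝 p, ∃ W ∈ 𝓝 p, W ⊆ U ∧ ∀ L : ℝ, ∃ B : ℕ, ∀ N : Net g,
      (∀ v ∈ N.V, v ∈ U → N.Balanced v) → N.lengthIn U ≤ L →
        ∑ v ∈ N.V with v ∈ W ∧ 3 ≤ N.deg v, N.deg v ≤ B) ∧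
    (∀ K U : Set M, IsCompact K → IsOpen U → K ⊆ U → ∀ L : ℝ, ∃ B : ℕ, ∀ N : Net g,
      (∀ v ∈ N.V, v ∈ U → N.Balanced v) → N.lengthIn U ≤ L →
        ∑ v ∈ N.V with v ∈ K ∧ 3 ≤ N.deg v, N.deg v ≤ B) ∧
    (∀ K : Set M, IsCompact K → ∀ d : M → M → ℝ, (Continuous fun q : M × M => d q.1 q.2) →
      (∀ x, d x x = 0) → ∀ δ : ℝ, 0 < δ → ∀ L : ℝ, ∃ B : ℕ, ∀ N : Net g, N.length ≤ L →
        ∑ v ∈ N.V with v ∈ K ∧ 3 ≤ N.deg v ∧ (∀ w ∈ N.V, ¬ N.Balanced w → δ ≤ d v w),
          N.deg v ≤ B) ∧
    (CompactSpace M → ∃ f : ℝ → ℕ, ∀ N : Net g, N.IsClosedNet →
      #N.V ≤ f N.length ∧ N.m ≤ f N.length) :=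
  ⟨fun p _ hU => local_bound g p hU, fun _ _ hK hU hKU L => compact_open g hK hU hKU L,
    fun _ hK d hd h0 _ hδ L => far_bound g hK d hd h0 hδ L, fun _ => closed_bound g⟩

end Pool.Agent.Results.MP_c30897_gt.InteriorEstimate
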